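import Mathlib
import Pool.Agent.W609.CR.Geo

set_option autoImplicit false

/-!
# Plane Cremona transformations of irreducible forms at generic points: statements
-/

namespace Pool.Agent.W609.CR

open MvPolynomial

/-- `f` vanishes to order at least `m` at the vector `v`. -/
def Van {K : Type} [Field K] (v : Fin 3 → K) (m : ℕ) (f : MvPolynomial (Fin 3) K) : Prop :=
  f ∈ (RingHom.ker (MvPolynomial.eval v)) ^ m

/-- `f` vanishes to order exactly `m` at the vector `v`. -/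
def Ord {K : Type} [Field K] (v : Fin 3 → K) (m : ℕ) (f : MvPolynomial (Fin 3) K) : Prop :=
  Van v m f ∧ ¬ Van v (m + 1) f

/-- The homogeneous coordinates of an affine point. -/
def aff {K : Type} [Field K] (a : Fin 2 → K) : Fin 3 → K := ![a 0, a 1, 1]

/-- The coordinate vectors. -/
def bs {K : Type} [Field K] (k : Fin 3) : Fin 3 → K := Pi.single k 1

/-- The forms of degree `d` vanishing to order at least `w i` at `v i`. -/
noncomputable def VS {K : Type} [Field K] {ι : Type} (v : ι → Fin 3 → K) (w : ι → ℕ) (d : ℕ) :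
    Submodule K (MvPolynomial (Fin 3) K) :=
  MvPolynomial.homogeneousSubmodule (Fin 3) K d ⊓
    Submodule.restrictScalars K (⨅ i, (RingHom.ker (MvPolynomial.eval (v i))) ^ (w i))

/-- The substitution `f ↦ f (A x)`. -/
noncomputable def lin {K : Type} [Field K] (A : Matrix (Fin 3) (Fin 3) K) :
    MvPolynomial (Fin 3) K →ₐ[K] MvPolynomial (Fin 3) K :=
  aeval (fun i => ∑ j, C (A i j) * X j)

/-- Linear changes of coordinates and scaling. -/
def P_LIN : Prop := ∀ (K : Type) [Field K],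
  (∀ A : Matrix (Fin 3) (Fin 3) K, A.det ≠ 0 →
    (∀ (f : MvPolynomial (Fin 3) K) (d : ℕ), f.IsHomogeneous d → (lin A f).IsHomogeneous d) ∧
    (∀ f : MvPolynomial (Fin 3) K, Irreducible f → Irreducible (lin A f)) ∧
    (∀ (v : Fin 3 → K) (m : ℕ) (f : MvPolynomial (Fin 3) K),
      Van (A.mulVec v) m f ↔ Van v m (lin A f)) ∧
    (∀ (ι : Type) [Fintype ι] (v : ι → Fin 3 → K) (w : ι → ℕ) (d : ℕ),
      Module.finrank K (VS (fun i => A.mulVec (v i)) w d) = Module.finrank K (VS v w d))) ∧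
  (∀ (f : MvPolynomial (Fin 3) K) (d : ℕ), f.IsHomogeneous d → ∀ c : K, c ≠ 0 →
    ∀ (v : Fin 3 → K) (m : ℕ), Van (c • v) m f ↔ Van v m f)

/-- The reversal of an irreducible polynomial is irreducible. -/
def P_STAR : Prop := ∀ (K : Type) [Field K] (f : MvPolynomial (Fin 3) K) (N : Fin 3 →₀ ℕ),
  Irreducible f → (∀ i, ¬ (X i : MvPolynomial (Fin 3) K) ∣ f) → (∀ i, N i = degreeOf i f) →
    Irreducible (rev (n := 2) N f) ∧ (∀ i, ¬ (X i : MvPolynomial (Fin 3) K) ∣ rev (n := 2) N f) ∧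
      (∀ i, degreeOf i (rev (n := 2) N f) = N i) ∧ rev (n := 2) N (rev (n := 2) N f) = f

/-- The standard Cremona transformation of an irreducible form. -/
def P_STD : Prop := ∀ (K : Type) [Field K] (d : ℕ) (G : MvPolynomial (Fin 3) K) (m : Fin 3 → ℕ)
    (ι : Type) (u : ι → Fin 3 → K) (w : ι → ℕ), 2 ≤ d → Irreducible G → G.IsHomogeneous d →
    (∀ k, Ord (bs k) (m k) G) → (∀ j k, u j k ≠ 0) → (∀ j, Ord (u j) (w j) G) →
    m 0 + m 1 ≤ d ∧ m 0 + m 2 ≤ d ∧ m 1 + m 2 ≤ d ∧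
    ∃ G' : MvPolynomial (Fin 3) K, Irreducible G' ∧
      G'.IsHomogeneous (2 * d - (m 0 + m 1 + m 2)) ∧
      (∀ k, Ord (bs k) ((![d - (m 1 + m 2), d - (m 0 + m 2), d - (m 0 + m 1)] : Fin 3 → ℕ) k) G') ∧
      (∀ j, Ord (fun k => (u j k)⁻¹) (w j) G')

/-- The dimensions under the standard Cremona transformation. -/
def P_STDV : Prop := ∀ (K : Type) [Field K] (d : ℕ) (m : Fin 3 → ℕ)
    (ι : Type) [Fintype ι] (u : ι → Fin 3 → K) (w : ι → ℕ), (∀ j k, u j k ≠ 0) →
    m 0 + m 1 ≤ d → m 0 + m 2 ≤ d → m 1 + m 2 ≤ d →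
    Module.finrank K (VS (Sum.elim bs u) (Sum.elim m w) d) ≤
      Module.finrank K (VS (Sum.elim bs fun j k => (u j k)⁻¹)
        (Sum.elim (![d - (m 1 + m 2), d - (m 0 + m 2), d - (m 0 + m 1)] : Fin 3 → ℕ) w)
        (2 * d - (m 0 + m 1 + m 2)))

/-- Exchange of algebraically independent elements. -/
def P_TRD : Prop := ∀ (K : Type) [Field K] [CharZero K] (ι : Type) [Fintype ι] (x y : ι → K),
  AlgebraicIndependent ℚ x →
    (∀ i, x i ∈ IntermediateField.adjoin ℚ (Set.range y)) → AlgebraicIndependent ℚ y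

/-- The matrix of three points. -/
def mat3 {K : Type} [Field K] {s : ℕ} (P : Fin s → Fin 2 → K) (i : Fin 3 → Fin s) :
    Matrix (Fin 3) (Fin 3) K := Matrix.of fun r c => aff (P (i c)) r

/-- The quadratic transformation based at three of the generic points. -/
def P_GEN : Prop := ∀ (K : Type) [Field K] [CharZero K] (s : ℕ) (P : Fin s → Fin 2 → K),
  AlgebraicIndependent ℚ (fun ij : Fin s × Fin 2 => P ij.1 ij.2) →
  ∀ i : Fin 3 → Fin s, Function.Injective i →
    (mat3 P i).det ≠ 0 ∧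
    (∀ j, (∀ k, j ≠ i k) → ∀ k, ((mat3 P i)⁻¹.mulVec (aff (P j))) k ≠ 0) ∧
    ∃ P' : Fin s → Fin 2 → K,
      AlgebraicIndependent ℚ (fun ij : Fin s × Fin 2 => P' ij.1 ij.2) ∧
      (∀ k, P' (i k) = P (i k)) ∧
      ∀ j, (∀ k, j ≠ i k) → ∃ c : K, c ≠ 0 ∧
        (mat3 P i).mulVec (fun k => ((mat3 P i)⁻¹.mulVec (aff (P j)) k)⁻¹) = c • aff (P' j)

/-- The multiplicities after the transformation. -/
def wcr {s : ℕ} (d : ℕ) (i : Fin 3 → Fin s) (w : Fin s → ℕ) : Fin s → ℕ := fun j =>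
  if j = i 0 then d - (w (i 1) + w (i 2)) else
  if j = i 1 then d - (w (i 0) + w (i 2)) else
  if j = i 2 then d - (w (i 0) + w (i 1)) else w j

/-- One quadratic transformation of an irreducible curve. -/
def P_STEP : Prop := ∀ (K : Type) [Field K] [CharZero K] (s : ℕ) (P : Fin s → Fin 2 → K),
  AlgebraicIndependent ℚ (fun ij : Fin s × Fin 2 => P ij.1 ij.2) →
  ∀ i : Fin 3 → Fin s, Function.Injective i →
  ∀ (d : ℕ) (G : MvPolynomial (Fin 3) K) (w : Fin s → ℕ), 2 ≤ d → Irreducible G →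
    G.IsHomogeneous d → (∀ j, Ord (aff (P j)) (w j) G) →
    w (i 0) + w (i 1) ≤ d ∧ w (i 0) + w (i 2) ≤ d ∧ w (i 1) + w (i 2) ≤ d ∧
    ∃ (P' : Fin s → Fin 2 → K) (G' : MvPolynomial (Fin 3) K),
      AlgebraicIndependent ℚ (fun ij : Fin s × Fin 2 => P' ij.1 ij.2) ∧ Irreducible G' ∧
      G'.IsHomogeneous (2 * d - (w (i 0) + w (i 1) + w (i 2))) ∧
      (∀ j, Ord (aff (P' j)) (wcr d i w j) G') ∧
      Module.finrank K (VS (fun j => aff (P j)) w d) ≤
        Module.finrank K (VS (fun j => aff (P' j)) (wcr d i w)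
          (2 * d - (w (i 0) + w (i 1) + w (i 2))))

/-- The ideal of a point of the plane, for forms. -/
def P_LINK : Prop := ∀ (K : Type) [Field K] (a : Fin 2 → K) (m : ℕ)
  (f : MvPolynomial (Fin 3) K) (d : ℕ), f.IsHomogeneous d →
    (Van (aff a) m f ↔ f ∈ (Ideal.span
      ({MvPolynomial.X 0 - MvPolynomial.C (a 0) * MvPolynomial.X 2,
        MvPolynomial.X 1 - MvPolynomial.C (a 1) * MvPolynomial.X 2} :
        Set (MvPolynomial (Fin 3) K))) ^ m)

end Pool.Agent.W609.CR
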