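import Mathlib
import Pool.Agent.W327.CR.Lin
import Pool.Agent.W883.CR.Star
import Pool.Agent.W641.CR.Std
import Pool.Agent.W131.CR.Stdv
import Pool.Agent.W816.CR.Trd
import Pool.Agent.W797.CR.Gen
import Pool.Agent.W150.CR.Step
import Pool.Agent.W591.CR.Link

set_option autoImplicit false

namespace Pool.Agent.W609.CR

theorem t_lin : P_LIN := Pool.Agent.W327.CR.t_lin
theorem t_star : P_STAR := Pool.Agent.W883.CR.t_star
theorem t_std : P_STD := Pool.Agent.W641.CR.t_std t_star
theorem t_stdv : P_STDV := Pool.Agent.W131.CR.t_stdv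
theorem t_gen : P_GEN := Pool.Agent.W797.CR.t_gen Pool.Agent.W816.CR.t_trd
theorem t_step : P_STEP := Pool.Agent.W150.CR.t_step t_lin t_std t_stdv t_gen
theorem t_link : P_LINK := Pool.Agent.W591.CR.t_link

end Pool.Agent.W609.CR
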